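import Pool.Agent.Lib.MP_6bc78b_nt.GP.H78.Tkx

/-! Project GP8 (MP_6bc78b_nt): the number of the primes of a block dividing `n`, on a short range. -/

set_option autoImplicit false

open Filter Topology MeasureTheory
open scoped ENNReal

namespace Pool.Agent.Lib.MP_6bc78b_nt.GP.H78

open Pool.Agent.Lib.MP_6bc78b_nt.GP.G7

lemma mem_qs_iff {P Q : ℝ} (hQ : 0 ≤ Q) {q : ℕ} :
    q ∈ qs P Q ↔ q.Prime ∧ P < q ∧ (q : ℝ) ≤ Q := by
  classical
  refine ⟨fun h => mem_qs hQ h, fun h => ?_⟩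
  unfold qs
  rw [Finset.mem_filter, Finset.mem_range]
  exact ⟨Nat.lt_succ_of_le (Nat.le_floor h.2.2), h.1, h.2.1⟩

lemma card_qs (P Q : ℝ) (hQ : 0 ≤ Q) : ((qs P Q).card : ℝ) ≤ Q := by
  have h1 : qs P Q ⊆ Finset.Icc 1 ⌊Q⌋₊ := by
    intro q hq
    obtain ⟨h2, h3, h4⟩ := mem_qs hQ hq
    rw [Finset.mem_Icc]
    exact ⟨h2.one_le, Nat.le_floor h4⟩
  have h2 := Finset.card_le_card h1
  rw [Nat.card_Icc, Nat.add_sub_cancel] at h2
  exact (Nat.cast_le.2 h2).trans (Nat.floor_le hQ)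

/-- The multiples of `d` in a short range. -/
lemma card_mult (N κ : ℝ) (hN : 0 < N) (hκ : 0 < κ) (hκ1 : κ ≤ 1) (d : ℕ) (hd : 0 < d) :
    ∑ n ∈ Finset.Ioc ⌊N⌋₊ ⌊Real.exp κ * N⌋₊, (if d ∣ n then (1 : ℝ) else 0) ≤
      2 * κ * N / d + 1 := by
  classical
  have hd0 : (0 : ℝ) < d := by exact_mod_cast hd
  rw [← Finset.sum_filter, Finset.sum_const, nsmul_eq_mul, mul_one]
  have hEκ : Real.exp κ - 1 ≤ 2 * κ := by
    have := Real.abs_exp_sub_one_sub_id_le (x := κ) (by rw [abs_of_pos hκ]; exact hκ1)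
    have h8 := (abs_le.1 this).2
    nlinarith
  have hle : N ≤ Real.exp κ * N := by
    have := Real.one_le_exp hκ.le
    nlinarith
  have h1 : ((Finset.Ioc ⌊N⌋₊ ⌊Real.exp κ * N⌋₊).filter (fun n => d ∣ n)).card ≤
      (Finset.Ioc ⌊N / d⌋₊ ⌊Real.exp κ * N / d⌋₊).card := by
    apply Finset.card_le_card_of_injOn (fun n => n / d)
    · intro n hn
      rw [Finset.mem_coe, Finset.mem_filter, Finset.mem_Ioc, Nat.floor_lt hN.le,
        Nat.le_floor_iff (by positivity)] at hn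
      obtain ⟨⟨h1, h2⟩, h3⟩ := hn
      have e : ((n / d : ℕ) : ℝ) = n / d := Nat.cast_div h3 hd0.ne'
      rw [Finset.mem_coe, Finset.mem_Ioc, Nat.floor_lt (by positivity),
        Nat.le_floor_iff (by positivity), e]
      exact ⟨div_lt_div_of_pos_right h1 hd0, div_le_div_of_nonneg_right h2 hd0.le⟩
    · intro n hn m hm h
      rw [Finset.mem_coe, Finset.mem_filter] at hn hm
      have h' : n / d = m / d := h
      rw [← Nat.div_mul_cancel hn.2, ← Nat.div_mul_cancel hm.2, h']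
  rw [Nat.card_Ioc] at h1
  have h3 : ⌊N / d⌋₊ ≤ ⌊Real.exp κ * N / d⌋₊ :=
    Nat.floor_le_floor (div_le_div_of_nonneg_right hle hd0.le)
  have h4 : (((Finset.Ioc ⌊N⌋₊ ⌊Real.exp κ * N⌋₊).filter (fun n => d ∣ n)).card : ℝ) ≤
      (⌊Real.exp κ * N / d⌋₊ : ℝ) - ⌊N / d⌋₊ := by
    rw [← Nat.cast_sub h3]
    exact_mod_cast h1
  have h5 : (⌊Real.exp κ * N / d⌋₊ : ℝ) ≤ Real.exp κ * N / d := Nat.floor_le (by positivity)
  have h6 : N / d < (⌊N / d⌋₊ : ℝ) + 1 := Nat.lt_floor_add_one _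
  have h7 : Real.exp κ * N / d - N / d ≤ 2 * κ * N / d := by
    rw [← sub_div]
    apply div_le_div_of_nonneg_right _ hd0.le
    nlinarith
  linarith

/-- The mean square of `ω` on a short range. -/
theorem end_om (P Q N κ : ℝ) (hQ : 0 ≤ Q) (hN : 0 < N) (hκ : 0 < κ) (hκ1 : κ ≤ 1) :
    ∑ n ∈ Finset.Ioc ⌊N⌋₊ ⌊Real.exp κ * N⌋₊, omq P Q n ^ 2 ≤
      2 * κ * N * (Wq P Q ^ 2 + Wq P Q) + Q ^ 2 := by
  classical
  set S := qs P Q with hS
  have hpr : ∀ q ∈ S, q.Prime := fun q hq => (mem_qs hQ hq).1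
  have hpos : ∀ q ∈ S, 0 < q := fun q hq => (hpr q hq).pos
  let dd : ℕ → ℕ → ℕ := fun q r => if q = r then q else q * r
  have hdd : ∀ q ∈ S, ∀ r ∈ S, 0 < dd q r := by
    intro q hq r hr
    simp only [dd]
    split_ifs
    · exact hpos q hq
    · exact Nat.mul_pos (hpos q hq) (hpos r hr)
  have hdv : ∀ q ∈ S, ∀ r ∈ S, ∀ n : ℕ,
      (if q ∣ n then (1 : ℝ) else 0) * (if r ∣ n then (1 : ℝ) else 0) =
        if dd q r ∣ n then (1 : ℝ) else 0 := by
    intro q hq r hr n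
    simp only [dd]
    by_cases h : q = r
    · subst h
      by_cases h2 : q ∣ n <;> simp [h2]
    · simp only [h, if_false]
      have hc : Nat.Coprime q r := (Nat.coprime_primes (hpr q hq) (hpr r hr)).2 h
      by_cases h2 : q ∣ n
      · by_cases h3 : r ∣ n
        · simp [h2, h3, hc.mul_dvd_of_dvd_of_dvd h2 h3]
        · have : ¬ q * r ∣ n := fun h4 => h3 (dvd_trans (dvd_mul_left _ _) h4)
          simp [h3, this]
      · have : ¬ q * r ∣ n := fun h4 => h2 (dvd_trans (dvd_mul_right _ _) h4)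
        simp [h2, this]
  have hsq : ∀ n : ℕ, omq P Q n ^ 2 = ∑ q ∈ S, ∑ r ∈ S,
      (if dd q r ∣ n then (1 : ℝ) else 0) := by
    intro n
    rw [omq_eq, oms, sq, Finset.sum_mul_sum]
    refine Finset.sum_congr rfl (fun q hq => Finset.sum_congr rfl (fun r hr => ?_))
    rw [← hdv q hq r hr n]
  rw [Finset.sum_congr rfl (fun n _ => hsq n), Finset.sum_comm]
  have hW : Wq P Q = ∑ q ∈ S, 1 / (q : ℝ) := rfl
  have hcard : (S.card : ℝ) ≤ Q := card_qs P Q hQ
  calc ∑ q ∈ S, ∑ n ∈ Finset.Ioc ⌊N⌋₊ ⌊Real.exp κ * N⌋₊, ∑ r ∈ S,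
        (if dd q r ∣ n then (1 : ℝ) else 0) =
        ∑ q ∈ S, ∑ r ∈ S, ∑ n ∈ Finset.Ioc ⌊N⌋₊ ⌊Real.exp κ * N⌋₊,
        (if dd q r ∣ n then (1 : ℝ) else 0) := by
        refine Finset.sum_congr rfl (fun q _ => ?_)
        rw [Finset.sum_comm]
    _ ≤ ∑ q ∈ S, ∑ r ∈ S, (2 * κ * N * ((1 / (q : ℝ)) * (1 / (r : ℝ))) +
        (if q = r then 2 * κ * N * (1 / (q : ℝ)) else 0) + 1) := by
        refine Finset.sum_le_sum (fun q hq => Finset.sum_le_sum (fun r hr => ?_))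
        have h1 := card_mult N κ hN hκ hκ1 (dd q r) (hdd q hq r hr)
        have hq0 : (0 : ℝ) < q := by exact_mod_cast hpos q hq
        have hr0 : (0 : ℝ) < r := by exact_mod_cast hpos r hr
        by_cases h : q = r
        · subst h
          simp only [dd, if_true] at h1 ⊢
          have e : 2 * κ * N / (q : ℝ) = 2 * κ * N * (1 / (q : ℝ)) := by ring
          have : (0 : ℝ) ≤ 2 * κ * N * ((1 / (q : ℝ)) * (1 / (q : ℝ))) := by positivity
          linarith
        · simp only [dd, h, if_false] at h1 ⊢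
          have e : 2 * κ * N / ((q * r : ℕ) : ℝ) =
              2 * κ * N * ((1 / (q : ℝ)) * (1 / (r : ℝ))) := by
            push_cast
            field_simp
          rw [e] at h1
          linarith
    _ = 2 * κ * N * Wq P Q ^ 2 + 2 * κ * N * Wq P Q + (S.card : ℝ) ^ 2 := by
        simp only [Finset.sum_add_distrib]
        congr 1
        · congr 1
          · rw [hW, sq, Finset.sum_mul_sum, Finset.mul_sum]
            refine Finset.sum_congr rfl (fun q _ => ?_)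
            rw [Finset.mul_sum]
          · rw [hW, Finset.mul_sum]
            refine Finset.sum_congr rfl (fun q hq => ?_)
            rw [Finset.sum_ite_eq]
            simp [hq]
        · simp [sq]
    _ ≤ 2 * κ * N * (Wq P Q ^ 2 + Wq P Q) + Q ^ 2 := by
        have : (S.card : ℝ) ^ 2 ≤ Q ^ 2 := pow_le_pow_left₀ (by positivity) hcard 2
        nlinarith

/-- Splitting a block of primes. -/
lemma sum_qs_split {M : Type*} [AddCommMonoid M] {P Q' Q : ℝ} (h0 : 0 ≤ P) (h1 : P ≤ Q')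
    (h2 : Q' ≤ Q) (g : ℕ → M) :
    ∑ q ∈ qs P Q, g q = ∑ q ∈ qs P Q', g q + ∑ q ∈ qs Q' Q, g q := by
  classical
  have hQ' : 0 ≤ Q' := h0.trans h1
  have hQ : 0 ≤ Q := hQ'.trans h2
  rw [← Finset.sum_union]
  · congr 1
    ext q
    rw [Finset.mem_union, mem_qs_iff hQ, mem_qs_iff hQ', mem_qs_iff hQ]
    constructor
    · rintro ⟨a, b, c⟩
      rcases le_or_gt (q : ℝ) Q' with h | h
      · exact Or.inl ⟨a, b, h⟩
      · exact Or.inr ⟨a, h, c⟩
    · rintro (⟨a, b, c⟩ | ⟨a, b, c⟩)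
      · exact ⟨a, b, c.trans h2⟩
      · exact ⟨a, lt_of_le_of_lt h1 b, c⟩
  · rw [Finset.disjoint_left]
    intro q hq hq2
    rw [mem_qs_iff hQ'] at hq
    rw [mem_qs_iff hQ] at hq2
    linarith [hq.2.2, hq2.2.1]

/-- The blocks `(P e^{κv}, P e^{κ(v+1)}]`. -/
lemma sum_qs_blocks {M : Type*} [AddCommMonoid M] (P κ : ℝ) (hP : 0 ≤ P) (hκ : 0 ≤ κ) (n : ℕ)
    (g : ℕ → M) : ∑ q ∈ qs P (P * Real.exp (κ * n)), g q =
      ∑ v ∈ Finset.range n, ∑ q ∈ qs (P * Real.exp (κ * v))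
        (Real.exp κ * (P * Real.exp (κ * v))), g q := by
  induction n with
  | zero =>
    rw [Finset.range_zero, Finset.sum_empty]
    apply Finset.sum_eq_zero
    intro q hq
    rw [mem_qs_iff (by positivity)] at hq
    exfalso
    have := hq.2.1.trans_le hq.2.2
    simp at this
  | succ n ih =>
    rw [Finset.sum_range_succ, ← ih]
    have e : Real.exp κ * (P * Real.exp (κ * n)) = P * Real.exp (κ * (n + 1 : ℕ)) := by
      push_cast
      rw [mul_add, Real.exp_add, mul_one]; ring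
    rw [e]
    apply sum_qs_split hP
    · have : 1 ≤ Real.exp (κ * n) := Real.one_le_exp (by positivity)
      nlinarith
    · apply mul_le_mul_of_nonneg_left _ hP
      apply Real.exp_le_exp.2
      push_cast
      nlinarith

end Pool.Agent.Lib.MP_6bc78b_nt.GP.H78
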