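import Pool.Agent.Lib.MP_6bc78b_nt.GP.H62.Defs7

/-! Project GP7 (MP_6bc78b_nt): the parameters for large `T`. -/

set_option autoImplicit false

open Filter Topology

namespace Pool.Agent.Lib.MP_6bc78b_nt.GP.H78

open Pool.Agent.Lib.MP_6bc78b_nt.GP.G7

/-- The exponent `k = ⌈20 log log T⌉`. -/
noncomputable def kk (T : ℝ) : ℕ := ⌈20 * Real.log (Real.log T)⌉₊

lemma tt1 : Tendsto Real.log atTop atTop := Real.tendsto_log_atTop

lemma tt2 : Tendsto (fun T : ℝ => Real.log (Real.log T)) atTop atTop :=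
  Real.tendsto_log_atTop.comp Real.tendsto_log_atTop

lemma ev_L (M : ℝ) : ∀ᶠ T : ℝ in atTop, M ≤ Real.log T := tt1.eventually_ge_atTop M

lemma ev_lL (M : ℝ) : ∀ᶠ T : ℝ in atTop, M ≤ Real.log (Real.log T) := tt2.eventually_ge_atTop M

lemma ev_PP (M : ℝ) : ∀ᶠ T : ℝ in atTop, M ≤ PP T := by
  filter_upwards [ev_lL (max M 1)] with T hT
  have h1 : 1 ≤ Real.log (Real.log T) := (le_max_right _ _).trans hT
  have h2 : M ≤ Real.log (Real.log T) := (le_max_left _ _).trans hT
  rw [PP]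
  nlinarith

/-- `log x ≤ x` style bound on the exponent. -/
lemma kk_le {T : ℝ} (h : 1 ≤ Real.log (Real.log T)) : (kk T : ℝ) ≤ 21 * Real.log (Real.log T) := by
  have := (Nat.ceil_lt_add_one (a := 20 * Real.log (Real.log T)) (by linarith)).le
  rw [kk]
  linarith

lemma kk_ge (T : ℝ) : 20 * Real.log (Real.log T) ≤ (kk T : ℝ) := Nat.le_ceil _

lemma log_PP {T : ℝ} : Real.log (PP T) = 2 * Real.log (Real.log (Real.log T)) := by
  rw [PP, Real.log_pow]; norm_num

/-- `(log T)^m Q^k ≤ T^η` for large `T`. -/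
theorem ev_QQk (K m : ℕ) (η : ℝ) (hη : 0 < η) : ∀ᶠ T : ℝ in atTop,
    Real.log T ^ m * QQ K T ^ kk T ≤ T ^ η := by
  -- `(m x + 42 K x²) ≤ η e^x`
  have h1 : Tendsto (fun x : ℝ => (m * x + 42 * K * x ^ 2) * Real.exp (-x)) atTop (𝓝 0) := by
    have a1 := Real.tendsto_pow_mul_exp_neg_atTop_nhds_zero 1
    have a2 := Real.tendsto_pow_mul_exp_neg_atTop_nhds_zero 2
    have a3 := (a1.const_mul (m : ℝ)).add (a2.const_mul (42 * K : ℝ))
    rw [mul_zero, mul_zero, add_zero] at a3
    refine a3.congr (fun x => ?_)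
    ring
  have h2 := tt2.eventually (h1.eventually_lt_const hη)
  filter_upwards [h2, ev_lL 1, ev_L 1, eventually_ge_atTop (1 : ℝ), ev_PP 2] with T h3 h4 h5 h6 h7
  set L := Real.log T with hL
  set x := Real.log L with hx
  have hL0 : 0 < L := by linarith
  have hT0 : 0 < T := by linarith
  have hex : Real.exp x = L := Real.exp_log hL0
  have h8 : m * x + 42 * K * x ^ 2 ≤ η * L := by
    rw [← hex]
    have h9 : (m * x + 42 * K * x ^ 2) * Real.exp (-x) * Real.exp x < η * Real.exp x :=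
      mul_lt_mul_of_pos_right h3 (Real.exp_pos _)
    have h10 : (m * x + 42 * K * x ^ 2) * Real.exp (-x) * Real.exp x =
        m * x + 42 * K * x ^ 2 := by
      rw [mul_assoc, ← Real.exp_add]; simp
    linarith
  have hP0 : 0 < PP T := by linarith
  have e1 : T ^ η = Real.exp (η * L) := by
    rw [Real.rpow_def_of_pos hT0, mul_comm]
  have e2 : L ^ m = Real.exp (m * x) := by
    rw [Real.exp_nat_mul, hex]
  have e3 : QQ K T ^ kk T = Real.exp (kk T * (K * Real.log (PP T))) := by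
    rw [QQ, Real.exp_nat_mul, Real.exp_nat_mul, Real.exp_log hP0]
  have h11 : Real.log (PP T) ≤ 2 * x := by
    rw [log_PP, ← hL, ← hx]
    have := Real.log_le_sub_one_of_pos (show 0 < x by linarith)
    linarith
  have h12 : (kk T : ℝ) ≤ 21 * x := kk_le h4
  have h13 : 0 ≤ Real.log (PP T) := Real.log_nonneg (by linarith)
  rw [e1, e2, e3, ← Real.exp_add]
  apply Real.exp_le_exp.2
  have h14 : (kk T : ℝ) * (K * Real.log (PP T)) ≤ (21 * x) * (K * (2 * x)) := by
    apply mul_le_mul h12 _ (by positivity) (by linarith)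
    exact mul_le_mul_of_nonneg_left h11 (by positivity)
  have h15 : (21 * x) * (K * (2 * x)) = 42 * K * x ^ 2 := by ring
  linarith

/-- `Q ≤ T^η` for large `T`. -/
theorem ev_QQ (K m : ℕ) (η : ℝ) (hη : 0 < η) : ∀ᶠ T : ℝ in atTop,
    Real.log T ^ m * QQ K T ≤ T ^ η := by
  filter_upwards [ev_QQk K m η hη, ev_lL 1, ev_L 1, ev_PP 2] with T h1 h2 h3 h4
  refine le_trans ?_ h1
  apply mul_le_mul_of_nonneg_left _ (by positivity)
  have h5 : 1 ≤ QQ K T := by
    rw [QQ]; exact one_le_pow₀ (by linarith)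
  have h6 : kk T ≠ 0 := by
    intro h
    have := kk_ge T
    rw [h] at this
    norm_num at this
    linarith
  exact le_self_pow₀ h5 h6

theorem ev_PQ (K : ℕ) (hK : 2 ≤ K) : ∀ᶠ T : ℝ in atTop, 2 ≤ PP T ∧ PP T < QQ K T := by
  filter_upwards [ev_PP 2] with T h
  refine ⟨h, ?_⟩
  rw [QQ]
  calc PP T = PP T ^ 1 := (pow_one _).symm
    _ < PP T ^ K := pow_lt_pow_right₀ (by linarith) (by omega)

/-- `(4k/P)^k ≤ V^{2k} L^{-20}` for large `T`. -/
theorem ev_kk (δ : ℝ) (K : ℕ) (hδ : 0 < δ) : ∀ᶠ T : ℝ in atTop,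
    0 < V2 δ K T ∧ (4 * (kk T : ℝ) / PP T) ^ kk T ≤ V2 δ K T ^ kk T / Real.log T ^ 20 := by
  -- `84 (1 + 2 K log x) / (δ x) ≤ e^{-1}`
  have h1 : Tendsto (fun x : ℝ => 84 * (1 + 2 * K * Real.log x) / (δ * x)) atTop (𝓝 0) := by
    have a1 : Tendsto (fun x : ℝ => Real.log x / x) atTop (𝓝 0) := by
      have := Real.tendsto_pow_log_div_mul_add_atTop 1 0 1 one_ne_zero
      simpa using this
    have a2 : Tendsto (fun x : ℝ => 1 / x) atTop (𝓝 0) := by
      simpa using tendsto_inv_atTop_zero (𝕜 := ℝ)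
    have a3 := (a2.const_mul (84 / δ)).add (a1.const_mul (168 * K / δ))
    rw [mul_zero, mul_zero, add_zero] at a3
    refine a3.congr' ?_
    filter_upwards [eventually_gt_atTop (0 : ℝ)] with x hx
    field_simp
    ring
  have h2 := tt2.eventually (h1.eventually_lt_const (Real.exp_pos (-1)))
  filter_upwards [h2, ev_lL 1, ev_L 1, ev_PP 2] with T h3 h4 h5 h6
  set L := Real.log T with hL
  set x := Real.log L with hx
  have hL0 : 0 < L := by linarith
  have hx0 : 0 < x := by linarith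
  have hlx : 0 ≤ Real.log x := Real.log_nonneg h4
  have hlP : Real.log (PP T) = 2 * Real.log x := log_PP
  have hP : PP T = x ^ 2 := rfl
  have hden : 0 < 1 + K * Real.log (PP T) := by
    rw [hlP]; positivity
  have hV : 0 < V2 δ K T := by
    rw [V2]; positivity
  refine ⟨hV, ?_⟩
  have hk : (kk T : ℝ) ≤ 21 * x := kk_le h4
  have h7 : 4 * (kk T : ℝ) / PP T ≤ V2 δ K T * Real.exp (-1) := by
    rw [div_le_iff₀ (by rw [hP]; positivity)]
    have h8 : 84 * (1 + 2 * K * Real.log x) ≤ Real.exp (-1) * (δ * x) := by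
      rw [div_lt_iff₀ (by positivity)] at h3
      exact h3.le
    have h9 : V2 δ K T * (1 + K * (2 * Real.log x)) = δ := by
      rw [V2, hlP]
      rw [hlP] at hden
      field_simp
    have h10 : 84 * x ≤ V2 δ K T * Real.exp (-1) * PP T := by
      rw [hP]
      have h11 : 0 < 1 + K * (2 * Real.log x) := by positivity
      rw [← mul_le_mul_iff_left₀ h11]
      calc 84 * x * (1 + K * (2 * Real.log x)) = x * (84 * (1 + 2 * K * Real.log x)) := by ring
        _ ≤ x * (Real.exp (-1) * (δ * x)) := mul_le_mul_of_nonneg_left h8 hx0.le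
        _ = δ * (Real.exp (-1) * x ^ 2) := by ring
        _ = V2 δ K T * (1 + K * (2 * Real.log x)) * (Real.exp (-1) * x ^ 2) := by rw [h9]
        _ = _ := by ring
    linarith
  calc (4 * (kk T : ℝ) / PP T) ^ kk T ≤ (V2 δ K T * Real.exp (-1)) ^ kk T :=
        pow_le_pow_left₀ (by rw [hP]; positivity) h7 _
    _ = V2 δ K T ^ kk T * Real.exp (-(kk T : ℝ)) := by
        rw [mul_pow, ← Real.exp_nat_mul]; congr 2; ring
    _ ≤ V2 δ K T ^ kk T * (1 / L ^ 20) := by
        apply mul_le_mul_of_nonneg_left _ (by positivity)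
        have h12 : L ^ 20 = Real.exp (20 * x) := by
          have : Real.exp x = L := Real.exp_log hL0
          rw [← this, ← Real.exp_nat_mul]; norm_num
        rw [h12, one_div, ← Real.exp_neg]
        apply Real.exp_le_exp.2
        have := kk_ge T
        linarith
    _ = _ := by ring

end Pool.Agent.Lib.MP_6bc78b_nt.GP.H78
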