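import Pool.Agent.Lib.MP_6bc78b_nt.GP.H3.Defs10
import Pool.Agent.Lib.MP_6bc78b_nt.GP.H78.Endx
import Pool.Agent.Lib.MP_6bc78b_nt.GP.H78.Par

/-! Project GP10 (MP_6bc78b_nt), row DECK: factorisation at the scale `P`, uniform in `κ`, `K`. -/

set_option autoImplicit false

open Filter Topology MeasureTheory
open scoped ENNReal

namespace Pool.Agent.Lib.MP_6bc78b_nt.GP.H78K

open Pool.Agent.Lib.MP_6bc78b_nt.GP.G7 Pool.Agent.Lib.MP_6bc78b_nt.GP.G8
  Pool.Agent.Lib.MP_6bc78b_nt.GP.H78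

/-- The multiples of `q`. -/
lemma dbl1 (F : ℕ → ℝ) (A : Finset ℕ) (q N : ℕ) (hq : 0 < q) (hA : ∀ m ∈ A, 1 ≤ m ∧ q * m ≤ N)
    (s : ℂ) :
    ∑ n ∈ Finset.Icc 1 N, ((if q ∣ n ∧ n / q ∈ A then F (n / q) else 0 : ℝ) : ℂ) * (n : ℂ) ^ s =
      (q : ℂ) ^ s * ∑ m ∈ A, (F m : ℂ) * (m : ℂ) ^ s := by
  classical
  have h1 : ∑ n ∈ Finset.Icc 1 N,
      ((if q ∣ n ∧ n / q ∈ A then F (n / q) else 0 : ℝ) : ℂ) * (n : ℂ) ^ s =
      ∑ n ∈ (Finset.Icc 1 N).filter (fun n => q ∣ n ∧ n / q ∈ A),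
        (F (n / q) : ℂ) * (n : ℂ) ^ s := by
    rw [Finset.sum_filter]
    refine Finset.sum_congr rfl (fun n _ => ?_)
    split_ifs <;> simp
  rw [h1, Finset.mul_sum]
  symm
  refine Finset.sum_nbij' (fun m => q * m) (fun n => n / q) ?_ ?_ ?_ ?_ ?_
  · intro m hm
    obtain ⟨a, b⟩ := hA m hm
    rw [Finset.mem_filter, Finset.mem_Icc]
    refine ⟨⟨Nat.succ_le_of_lt (Nat.mul_pos hq a), b⟩, dvd_mul_right _ _, ?_⟩
    rw [Nat.mul_div_cancel_left _ hq]; exact hm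
  · intro n hn
    exact (Finset.mem_filter.1 hn).2.2
  · intro m _
    exact Nat.mul_div_cancel_left _ hq
  · intro n hn
    exact Nat.mul_div_cancel' (Finset.mem_filter.1 hn).2.1
  · intro m _
    rw [Nat.mul_div_cancel_left _ hq, Nat.cast_mul, Complex.natCast_mul_natCast_cpow]
    ring

/-- The range of the cofactors of block `v`. -/
noncomputable def Av (ε T y : ℝ) : Finset ℕ := Finset.Ioc ⌊ε * T / y⌋₊ ⌊T / (ε * y)⌋₊

/-- `r(n)`: the number of the primes of the blocks dividing `n`, in range. -/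
noncomputable def rr (ε κ : ℝ) (K : ℕ) (P T : ℝ) (n : ℕ) : ℝ :=
  ∑ v ∈ Finset.range (nb P κ K), ∑ q ∈ qs (yb P κ v) (yb P κ (v + 1)),
    (if q ∣ n ∧ n / q ∈ Av ε T (yb P κ v) then (1 : ℝ) else 0)

/-- The coefficients of `D - F`. -/
noncomputable def ce (ε η κ : ℝ) (K : ℕ) (P T : ℝ) (n : ℕ) : ℝ :=
  ff η T n * ((if n ∈ Finset.Ioc ⌊ε * T⌋₊ ⌊T / ε⌋₊ then 1 else 0) -
    rr ε κ K P T n / Wb P κ K)

lemma yb_pos {P κ : ℝ} (hP : 0 < P) (v : ℕ) : 0 < yb P κ v := by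
  rw [yb]; positivity

lemma yb_succ (P κ : ℝ) (v : ℕ) : yb P κ (v + 1) = Real.exp κ * yb P κ v := by
  rw [yb, yb]; push_cast; rw [mul_add, Real.exp_add, mul_one]; ring

lemma yb_mono {P κ : ℝ} (hP : 0 < P) (hκ : 0 ≤ κ) {v w : ℕ} (h : v ≤ w) : yb P κ v ≤ yb P κ w := by
  rw [yb, yb]
  apply mul_le_mul_of_nonneg_left _ hP.le
  apply Real.exp_le_exp.2
  apply mul_le_mul_of_nonneg_left _ hκ
  exact_mod_cast h

/-- `D - F` as one Dirichlet polynomial. -/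
lemma dec8_eq (ε η κ : ℝ) (K : ℕ) (P T t : ℝ) (hε : 0 < ε) (hε1 : ε < 1) (hP : 2 ≤ P)
    (hκ1 : κ ≤ 1) (hT : 0 < T)
    (hff : ∀ v < nb P κ K, ∀ q ∈ qs (yb P κ v) (yb P κ (v + 1)), ∀ m : ℕ,
      ff η T (q * m) = ff η T m) :
    Dp ε η T t - Fb ε η κ K P T t =
      DP (fun n => (ce ε η κ K P T n : ℂ)) ⌊3 * (T / ε)⌋₊ t := by
  classical
  have hP0 : 0 < P := by linarith
  set N := ⌊3 * (T / ε)⌋₊ with hN
  set s : ℂ := -(1 + t * Complex.I : ℂ) with hs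
  have hD : Dp ε η T t = ∑ n ∈ Finset.Icc 1 N,
      ((ff η T n * (if n ∈ Finset.Ioc ⌊ε * T⌋₊ ⌊T / ε⌋₊ then 1 else 0) : ℝ) : ℂ) * (n : ℂ) ^ s := by
    rw [Dp]
    have hsub : Finset.Ioc ⌊ε * T⌋₊ ⌊T / ε⌋₊ ⊆ Finset.Icc 1 N := by
      intro m hm
      rw [Finset.mem_Ioc] at hm
      rw [Finset.mem_Icc]
      refine ⟨by omega, hm.2.trans ?_⟩
      apply Nat.floor_le_floor
      have : 0 < T / ε := by positivity
      linarith
    rw [← Finset.sum_subset hsub]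
    · refine Finset.sum_congr rfl (fun m hm => ?_)
      rw [if_pos hm, mul_one]
    · intro m _ hm
      rw [if_neg hm]
      simp
  have hQM : ∀ v ∈ Finset.range (nb P κ K), Qb P κ v t * Mb ε η (yb P κ v) T t =
      ∑ n ∈ Finset.Icc 1 N, ((ff η T n * ∑ q ∈ qs (yb P κ v) (yb P κ (v + 1)),
        (if q ∣ n ∧ n / q ∈ Av ε T (yb P κ v) then (1 : ℝ) else 0) : ℝ) : ℂ) * (n : ℂ) ^ s := by
    intro v hv
    rw [Finset.mem_range] at hv
    have hy := yb_pos (κ := κ) hP0 v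
    have hy1 := yb_pos (κ := κ) hP0 (v + 1)
    rw [Qb, Qp, Mb, Finset.sum_mul]
    have h1 : ∀ q ∈ qs (yb P κ v) (yb P κ (v + 1)),
        (q : ℂ) ^ s * ∑ m ∈ Finset.Ioc ⌊ε * T / yb P κ v⌋₊ ⌊T / (ε * yb P κ v)⌋₊,
          (ff η T m : ℂ) * (m : ℂ) ^ s =
        ∑ n ∈ Finset.Icc 1 N, ((if q ∣ n ∧ n / q ∈ Av ε T (yb P κ v) then ff η T (n / q)
          else 0 : ℝ) : ℂ) * (n : ℂ) ^ s := by
      intro q hq
      obtain ⟨hq1, hq2, hq3⟩ := mem_qs hy1.le hq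
      symm
      refine dbl1 (ff η T) (Av ε T (yb P κ v)) q N hq1.pos ?_ s
      intro m hm
      rw [Av, Finset.mem_Ioc, Nat.le_floor_iff (by positivity)] at hm
      refine ⟨by omega, ?_⟩
      apply Nat.le_floor
      push_cast
      rw [yb_succ] at hq3
      have hE : Real.exp κ ≤ 3 := by
        have := Real.exp_one_lt_d9
        have h5 := Real.exp_le_exp.2 hκ1
        linarith
      calc (q : ℝ) * m ≤ (Real.exp κ * yb P κ v) * (T / (ε * yb P κ v)) :=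
            mul_le_mul hq3 hm.2 (by positivity) (by positivity)
        _ = Real.exp κ * (T / ε) := by field_simp
        _ ≤ 3 * (T / ε) := mul_le_mul_of_nonneg_right hE (by positivity)
    rw [Finset.sum_congr rfl h1, Finset.sum_comm]
    refine Finset.sum_congr rfl (fun n _ => ?_)
    rw [← Finset.sum_mul]
    congr 1
    push_cast
    rw [Finset.mul_sum]
    refine Finset.sum_congr rfl (fun q hq => ?_)
    by_cases h : q ∣ n ∧ n / q ∈ Av ε T (yb P κ v)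
    · rw [if_pos h, if_pos h]
      have h2 := hff v hv q hq (n / q)
      rw [Nat.mul_div_cancel' h.1] at h2
      rw [h2]; push_cast; ring
    · rw [if_neg h, if_neg h]; simp
  rw [hD, Fb, Finset.sum_congr rfl hQM, Finset.sum_comm, Finset.mul_sum,
    ← Finset.sum_sub_distrib, DP]
  refine Finset.sum_congr rfl (fun n _ => ?_)
  rw [ce, rr, ← Finset.sum_mul, ← mul_assoc, ← sub_mul]
  congr 1
  push_cast
  rw [← Finset.mul_sum]
  ring

lemma om_blocks (P κ : ℝ) (K : ℕ) (hP : 0 ≤ P) (hκ : 0 ≤ κ) (n : ℕ) :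
    omq P (QE P κ K) n = ∑ v ∈ Finset.range (nb P κ K),
      ∑ q ∈ qs (yb P κ v) (yb P κ (v + 1)), (if q ∣ n then (1 : ℝ) else 0) := by
  rw [omq_eq, oms, QE, yb, sum_qs_blocks P κ hP hκ]
  refine Finset.sum_congr rfl (fun v _ => ?_)
  rw [yb_succ]
  rfl

/-- The position of the cofactor. -/
lemma pos_cof {P κ : ℝ} (hP : 0 < P) {v n q : ℕ} (hn : 0 < n)
    (hq : q ∈ qs (yb P κ v) (yb P κ (v + 1))) (hd : q ∣ n) :
    Real.exp (-κ) * n ≤ yb P κ v * (n / q : ℕ) ∧ yb P κ v * (n / q : ℕ) < n := by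
  have hy := yb_pos (κ := κ) hP v
  have hy1 := yb_pos (κ := κ) hP (v + 1)
  obtain ⟨hq1, hq2, hq3⟩ := mem_qs hy1.le hq
  rw [yb_succ] at hq3
  have hq0 : (0 : ℝ) < q := by exact_mod_cast hq1.pos
  have hn0 : (0 : ℝ) < n := by exact_mod_cast hn
  have e : ((n / q : ℕ) : ℝ) = n / q := Nat.cast_div hd hq0.ne'
  rw [e, mul_div_assoc']
  constructor
  · rw [le_div_iff₀ hq0]
    calc Real.exp (-κ) * n * q ≤ Real.exp (-κ) * n * (Real.exp κ * yb P κ v) :=
          mul_le_mul_of_nonneg_left hq3 (by positivity)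
      _ = (Real.exp (-κ) * Real.exp κ) * (yb P κ v * n) := by ring
      _ = yb P κ v * n := by rw [← Real.exp_add]; simp
  · rw [div_lt_iff₀ hq0]
    calc yb P κ v * n < q * n := mul_lt_mul_of_pos_right hq2 hn0
      _ = n * q := by ring

lemma mem_Av {ε T y : ℝ} (hε : 0 < ε) (hT : 0 < T) (hy : 0 < y) (m : ℕ) :
    m ∈ Av ε T y ↔ ε * T < y * m ∧ y * m ≤ T / ε := by
  rw [Av, Finset.mem_Ioc, Nat.floor_lt (by positivity), Nat.le_floor_iff (by positivity),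
    div_lt_iff₀ hy, le_div_iff₀ (by positivity), le_div_iff₀ hε]
  constructor
  · rintro ⟨a, b⟩
    exact ⟨by linarith, by linarith⟩
  · rintro ⟨a, b⟩
    exact ⟨by linarith, by linarith⟩

lemma rr_nonneg (ε κ : ℝ) (K : ℕ) (P T : ℝ) (n : ℕ) : 0 ≤ rr ε κ K P T n := by
  rw [rr]
  refine Finset.sum_nonneg (fun v _ => Finset.sum_nonneg (fun q _ => ?_))
  split_ifs <;> norm_num

lemma rr_le (ε κ : ℝ) (K : ℕ) (P T : ℝ) (hP : 0 ≤ P) (hκ : 0 ≤ κ) (n : ℕ) :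
    rr ε κ K P T n ≤ omq P (QE P κ K) n := by
  rw [om_blocks P κ K hP hκ, rr]
  refine Finset.sum_le_sum (fun v _ => Finset.sum_le_sum (fun q _ => ?_))
  by_cases h : q ∣ n
  · rw [if_pos h]
    split_ifs <;> norm_num
  · rw [if_neg h, if_neg (fun hc => h hc.1)]

/-- The size of the coefficients. -/
lemma ce_sq (ε η κ : ℝ) (K : ℕ) (P T : ℝ) (hε : 0 < ε) (hP : 2 ≤ P) (hκ : 0 < κ)
    (hT : 0 < T) (hW : 0 < Wb P κ K) (n : ℕ) (hn : 0 < n) :
    ce ε η κ K P T n ^ 2 ≤ ff η T n ^ 2 *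
      ((if n ∈ Finset.Ioc ⌊ε * T⌋₊ ⌊T / ε⌋₊ then
        2 * (1 - omq P (QE P κ K) n / Wb P κ K) ^ 2 else 0) +
      ((if n ∈ Finset.Ioc ⌊ε * T⌋₊ ⌊Real.exp κ * (ε * T)⌋₊ then
        2 * (omq P (QE P κ K) n / Wb P κ K) ^ 2 else 0) +
      (if n ∈ Finset.Ioc ⌊T / ε⌋₊ ⌊Real.exp κ * (T / ε)⌋₊ then
        2 * (omq P (QE P κ K) n / Wb P κ K) ^ 2 else 0))) := by
  have hP0 : 0 < P := by linarith
  set W := Wb P κ K with hWd
  set om := omq P (QE P κ K) n with hom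
  have h0 := rr_nonneg ε κ K P T n
  have h1 : rr ε κ K P T n ≤ om := rr_le ε κ K P T hP0.le hκ.le n
  set r := rr ε κ K P T n with hr
  have hn0 : (0 : ℝ) < n := by exact_mod_cast hn
  have hE : 1 < Real.exp κ := Real.one_lt_exp_iff.2 hκ
  have hEE : Real.exp (-κ) * Real.exp κ = 1 := by rw [← Real.exp_add]; simp
  have hεT : 0 < ε * T := by positivity
  have hTε : 0 < T / ε := by positivity
  have m1 : n ∈ Finset.Ioc ⌊ε * T⌋₊ ⌊T / ε⌋₊ ↔ ε * T < n ∧ (n : ℝ) ≤ T / ε := by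
    rw [Finset.mem_Ioc, Nat.floor_lt hεT.le, Nat.le_floor_iff hTε.le]
  have m2 : n ∈ Finset.Ioc ⌊ε * T⌋₊ ⌊Real.exp κ * (ε * T)⌋₊ ↔
      ε * T < n ∧ (n : ℝ) ≤ Real.exp κ * (ε * T) := by
    rw [Finset.mem_Ioc, Nat.floor_lt hεT.le, Nat.le_floor_iff (by positivity)]
  have m3 : n ∈ Finset.Ioc ⌊T / ε⌋₊ ⌊Real.exp κ * (T / ε)⌋₊ ↔
      T / ε < n ∧ (n : ℝ) ≤ Real.exp κ * (T / ε) := by
    rw [Finset.mem_Ioc, Nat.floor_lt hTε.le, Nat.le_floor_iff (by positivity)]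
  have hom0 : 0 ≤ om := h0.trans h1
  have hsq0 : 0 ≤ 2 * (om / W) ^ 2 := by positivity
  have hsq1 : 0 ≤ 2 * (1 - om / W) ^ 2 := by positivity
  -- `r = 0` outside, `r = om` inside
  have rzero : ((n : ℝ) ≤ ε * T ∨ Real.exp κ * (T / ε) < n) → r = 0 := by
    intro hc
    rw [hr, rr]
    refine Finset.sum_eq_zero (fun v _ => Finset.sum_eq_zero (fun q hq => ?_))
    rw [if_neg]
    rintro ⟨hd, hA⟩
    rw [mem_Av hε hT (yb_pos hP0 v)] at hA
    obtain ⟨b1, b2⟩ := pos_cof hP0 hn hq hd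
    rcases hc with hc | hc
    · linarith [hA.1]
    · have : T / ε < Real.exp (-κ) * n := by
        calc T / ε = Real.exp (-κ) * (Real.exp κ * (T / ε)) := by
              rw [← mul_assoc, hEE, one_mul]
          _ < Real.exp (-κ) * n := mul_lt_mul_of_pos_left hc (Real.exp_pos _)
      linarith [hA.2]
  have rfull : Real.exp κ * (ε * T) < n → (n : ℝ) ≤ T / ε → r = om := by
    intro g1 g2
    rw [hr, rr, hom, om_blocks P κ K hP0.le hκ.le]
    refine Finset.sum_congr rfl (fun v _ => Finset.sum_congr rfl (fun q hq => ?_))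
    by_cases hd : q ∣ n
    · obtain ⟨b1, b2⟩ := pos_cof hP0 hn hq hd
      have hA : n / q ∈ Av ε T (yb P κ v) := by
        rw [mem_Av hε hT (yb_pos hP0 v)]
        refine ⟨?_, by linarith⟩
        have : ε * T < Real.exp (-κ) * n := by
          calc ε * T = Real.exp (-κ) * (Real.exp κ * (ε * T)) := by
                rw [← mul_assoc, hEE, one_mul]
            _ < Real.exp (-κ) * n := mul_lt_mul_of_pos_left g1 (Real.exp_pos _)
        linarith
      rw [if_pos ⟨hd, hA⟩, if_pos hd]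
    · rw [if_neg hd, if_neg (fun hc => hd hc.1)]
  have hce : ce ε η κ K P T n = ff η T n *
      ((if n ∈ Finset.Ioc ⌊ε * T⌋₊ ⌊T / ε⌋₊ then 1 else 0) - r / W) := rfl
  rw [hce, mul_pow]
  apply mul_le_mul_of_nonneg_left _ (sq_nonneg _)
  rcases le_or_gt (n : ℝ) (ε * T) with hA | hA
  · -- below the range
    have g1 : n ∉ Finset.Ioc ⌊ε * T⌋₊ ⌊T / ε⌋₊ := by rw [m1]; intro hc; linarith [hc.1]
    rw [if_neg g1, if_neg g1, rzero (Or.inl hA)]
    have e1 : 0 ≤ (if n ∈ Finset.Ioc ⌊ε * T⌋₊ ⌊Real.exp κ * (ε * T)⌋₊ then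
        2 * (om / W) ^ 2 else 0) := by split_ifs <;> simp [hsq0]
    have e2 : 0 ≤ (if n ∈ Finset.Ioc ⌊T / ε⌋₊ ⌊Real.exp κ * (T / ε)⌋₊ then
        2 * (om / W) ^ 2 else 0) := by split_ifs <;> simp [hsq0]
    have e0 : ((0 : ℝ) - 0 / W) ^ 2 = 0 := by simp
    rw [e0]
    linarith
  · rcases le_or_gt (n : ℝ) (T / ε) with hB | hB
    · have g1 : n ∈ Finset.Ioc ⌊ε * T⌋₊ ⌊T / ε⌋₊ := m1.2 ⟨hA, hB⟩
      rw [if_pos g1, if_pos g1]
      have e2 : 0 ≤ (if n ∈ Finset.Ioc ⌊T / ε⌋₊ ⌊Real.exp κ * (T / ε)⌋₊ then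
          2 * (om / W) ^ 2 else 0) := by split_ifs <;> simp [hsq0]
      rcases le_or_gt (n : ℝ) (Real.exp κ * (ε * T)) with hC | hC
      · have g2 : n ∈ Finset.Ioc ⌊ε * T⌋₊ ⌊Real.exp κ * (ε * T)⌋₊ := m2.2 ⟨hA, hC⟩
        rw [if_pos g2]
        have e3 : 1 - r / W = (1 - om / W) + (om - r) / W := by ring
        have e4 : ((om - r) / W) ^ 2 ≤ (om / W) ^ 2 := by
          apply pow_le_pow_left₀ (div_nonneg (by linarith) hW.le)
          exact div_le_div_of_nonneg_right (by linarith) hW.le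
        rw [e3]
        nlinarith [sq_nonneg ((1 - om / W) - (om - r) / W)]
      · rw [rfull hC hB]
        have e1 : 0 ≤ (if n ∈ Finset.Ioc ⌊ε * T⌋₊ ⌊Real.exp κ * (ε * T)⌋₊ then
          2 * (om / W) ^ 2 else 0) := by split_ifs <;> simp [hsq0]
        nlinarith [sq_nonneg (1 - om / W)]
    · have g1 : n ∉ Finset.Ioc ⌊ε * T⌋₊ ⌊T / ε⌋₊ := by rw [m1]; intro hc; linarith [hc.2]
      rw [if_neg g1, if_neg g1]
      have e1 : 0 ≤ (if n ∈ Finset.Ioc ⌊ε * T⌋₊ ⌊Real.exp κ * (ε * T)⌋₊ then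
          2 * (om / W) ^ 2 else 0) := by split_ifs <;> simp [hsq0]
      rcases le_or_gt (n : ℝ) (Real.exp κ * (T / ε)) with hC | hC
      · have g2 : n ∈ Finset.Ioc ⌊T / ε⌋₊ ⌊Real.exp κ * (T / ε)⌋₊ := m3.2 ⟨hB, hC⟩
        rw [if_pos g2]
        have e4 : (0 - r / W) ^ 2 ≤ (om / W) ^ 2 := by
          rw [zero_sub, neg_sq]
          apply pow_le_pow_left₀ (div_nonneg h0 hW.le)
          exact div_le_div_of_nonneg_right h1 hW.le
        have : 0 ≤ (om / W) ^ 2 := sq_nonneg _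
        linarith
      · rw [rzero (Or.inr hC)]
        have e2 : 0 ≤ (if n ∈ Finset.Ioc ⌊T / ε⌋₊ ⌊Real.exp κ * (T / ε)⌋₊ then
          2 * (om / W) ^ 2 else 0) := by split_ifs <;> simp [hsq0]
        have e0 : ((0 : ℝ) - 0 / W) ^ 2 = 0 := by simp
        rw [e0]
        linarith

/-- **Row DEC8**, with `C`, `T0` independent of `κ`, `K`, `P`. -/
theorem dec8u (hM : MVTXStatement) (hB : BASXStatement) : ∀ a ε : ℝ, 0 < a → 0 < ε → ε < 1 →
    ∃ C : ℝ, 0 < C ∧ ∀ η : ℝ, 0 < η → η < 1 → ∃ T0 : ℝ, 10 < T0 ∧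
    ∀ (κ : ℝ) (K : ℕ) (T h P : ℝ), 0 < κ → κ ≤ 1 → T0 ≤ T → 1 ≤ h → h ≤ Real.log T ^ 2 →
    2 ≤ P → QE P κ K ≤ T ^ (η / 8) → 1 ≤ Wb P κ K →
    ∫⁻ t : ℝ, ENNReal.ofReal (‖Dp ε η T t - Fb ε η κ K P T t‖ ^ 2 *
        Real.exp (-(a * h / T * |t|))) ≤
      ENNReal.ofReal (C * (1 / Wb P κ K + κ) * Real.log T ^ 4) := by
  classical
  obtain ⟨C0, hC0, hmv⟩ := hM
  obtain ⟨C1, T2, hC1, hT2, htk⟩ := tkx' 1 one_pos
  intro a ε ha hε hε1
  set B0 : ℝ := 1 / (a * ε ^ 2) + 1 / ε with hB0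
  have hB00 : 0 < B0 := by positivity
  set E0 : ℝ := Real.exp (2 / ε) with hE0
  have hE00 : 0 < E0 := Real.exp_pos _
  refine ⟨C0 * (B0 * (2 * E0 * C1 + 64 + 128 * (ε + 1 / ε))), by positivity, ?_⟩
  intro η hη hη1
  have hev : ∀ᶠ T : ℝ in atTop, 10 < T ∧ 1 ≤ Real.log T ∧ T2 ≤ T ∧ 3 / ε ≤ T ∧
      a * Real.log T ^ 2 ≤ T ∧ 2 ≤ η * Real.log T ^ 2 := by
    have g3 : ∀ᶠ T : ℝ in atTop, a * Real.log T ^ 2 ≤ T := by
      have h1 := Real.isLittleO_pow_log_id_atTop (n := 2)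
      have h2 := h1.bound (c := 1 / a) (by positivity)
      filter_upwards [h2, eventually_ge_atTop (1 : ℝ)] with T h3 h4
      rw [Real.norm_of_nonneg (by positivity), id, Real.norm_of_nonneg (by linarith)] at h3
      calc a * Real.log T ^ 2 ≤ a * (1 / a * T) := mul_le_mul_of_nonneg_left h3 ha.le
        _ = T := by field_simp
    filter_upwards [eventually_gt_atTop (10 : ℝ), ev_L 1, eventually_ge_atTop T2,
      eventually_ge_atTop (3 / ε), g3, ev_L (2 / η)] with T h1 h2 h3 h4 h5 h6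
    refine ⟨h1, h2, h3, h4, h5, ?_⟩
    rw [div_le_iff₀ hη] at h6
    nlinarith
  rw [eventually_atTop] at hev
  obtain ⟨T1, hT1⟩ := hev
  refine ⟨max T1 11, lt_of_lt_of_le (by norm_num) (le_max_right _ _), ?_⟩
  intro κ K T h P hκ hκ1 hT hh1 hh2 hP hQE hW1
  obtain ⟨p1, p2, p3, p4, p5, p6⟩ := hT1 T ((le_max_left _ _).trans hT)
  have hT0 : 0 < T := by linarith
  have hT1' : 1 ≤ T := by linarith
  have hP0 : 0 < P := by linarith
  set L := Real.log T with hL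
  have hL0 : 0 < L := by linarith
  set W := Wb P κ K with hWd
  have hW : 0 < W := by linarith
  set Q := QE P κ K with hQd
  have hQ0 : 0 < Q := yb_pos hP0 _
  have hPQ : P < Q := by
    by_contra hc
    push Not at hc
    have : W = 0 := by
      rw [hWd, Wb, Wq]
      apply Finset.sum_eq_zero
      intro q hq
      obtain ⟨_, g2, g3⟩ := mem_qs hQ0.le hq
      linarith
    linarith
  have hQ4 : Q ≤ T ^ (1 / 4 : ℝ) :=
    hQE.trans (Real.rpow_le_rpow_of_exponent_le hT1' (by linarith))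
  obtain ⟨hs, htk1⟩ := htk T P Q p3 hP hPQ hQ4 hW1
  have hff : ∀ v < nb P κ K, ∀ q ∈ qs (yb P κ v) (yb P κ (v + 1)), ∀ m : ℕ,
      ff η T (q * m) = ff η T m := by
    intro v hv q hq m
    obtain ⟨g1, g2, g3⟩ := mem_qs (yb_pos hP0 _).le hq
    refine hB.2.2.2 η T q m (by linarith) hη p6 g1 ?_
    calc (q : ℝ) ≤ yb P κ (v + 1) := g3
      _ ≤ Q := yb_mono hP0 hκ.le (Nat.succ_le_of_lt hv)
      _ ≤ T ^ (η / 8) := hQE
      _ ≤ T ^ (η / 2) := Real.rpow_le_rpow_of_exponent_le hT1' (by linarith)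
  set b := a * h / T with hb
  have hh0 : 0 < h := by linarith
  have hb0 : 0 < b := by positivity
  have hb1 : b ≤ 1 := by
    rw [hb, div_le_one hT0]
    calc a * h ≤ a * L ^ 2 := mul_le_mul_of_nonneg_left hh2 ha.le
      _ ≤ T := p5
  set N := ⌊3 * (T / ε)⌋₊ with hN
  have hmain := hmv N (fun n => (ce ε η κ K P T n : ℂ)) b hb0 hb1
  have e1 : (fun t : ℝ => ENNReal.ofReal (‖Dp ε η T t - Fb ε η κ K P T t‖ ^ 2 *
      Real.exp (-(b * |t|)))) = fun t : ℝ =>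
      ENNReal.ofReal (‖DP (fun n => (ce ε η κ K P T n : ℂ)) N t‖ ^ 2 *
        Real.exp (-(b * |t|))) := by
    funext t
    rw [dec8_eq ε η κ K P T t hε hε1 hP hκ1 hT0 hff]
  rw [e1]
  refine hmain.trans (ENNReal.ofReal_le_ofReal ?_)
  -- the size of `ff`
  have hffsq : ∀ n ∈ Finset.Icc 1 N, ff η T n ^ 2 ≤ Real.log n ^ 4 ∧
      ff η T n ^ 2 ≤ 16 * L ^ 4 := by
    intro n hn
    rw [Finset.mem_Icc] at hn
    have hn0 : (0 : ℝ) < n := by exact_mod_cast hn.1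
    obtain ⟨h1, h2⟩ := hB.2.2.1 η T n (by linarith) hη
    have h3 := (hB.2.1 n).2
    have h4 : Real.log n ≤ 2 * L := by
      have h5 : (n : ℝ) ≤ T ^ 2 := by
        have h6 : 3 * (T / ε) ≤ T ^ 2 := by
          calc 3 * (T / ε) = (3 / ε) * T := by ring
            _ ≤ T * T := mul_le_mul_of_nonneg_right p4 hT0.le
            _ = T ^ 2 := by ring
        exact ((Nat.cast_le.2 hn.2).trans (Nat.floor_le (by positivity))).trans h6
      calc Real.log n ≤ Real.log (T ^ 2) := Real.log_le_log hn0 h5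
        _ = 2 * L := by rw [Real.log_pow, hL]; norm_num
    have h6 : 0 ≤ Real.log n := Real.log_natCast_nonneg n
    have h7 : ff η T n ^ 2 ≤ (Real.log n ^ 2) ^ 2 := pow_le_pow_left₀ h1 (h2.trans h3) 2
    have h8 : (Real.log n ^ 2) ^ 2 = Real.log n ^ 4 := by ring
    have h9 : Real.log n ^ 4 ≤ (2 * L) ^ 4 := pow_le_pow_left₀ h6 h4 4
    have h10 : (2 * L) ^ 4 = 16 * L ^ 4 := by ring
    constructor
    · linarith
    · linarith
  have hεT : 0 < ε * T := by positivity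
  have hTε : 0 < T / ε := by positivity
  -- the weight
  have hwt : ∀ n ∈ Finset.Icc 1 N, (1 / b + n) * ‖((ce ε η κ K P T n : ℝ) : ℂ)‖ ^ 2 /
      (n : ℝ) ^ 2 ≤ B0 / T * ce ε η κ K P T n ^ 2 := by
    intro n hn
    have hn1 := (Finset.mem_Icc.1 hn).1
    have hn0 : (0 : ℝ) < n := by exact_mod_cast hn1
    rw [Complex.norm_real, Real.norm_eq_abs, sq_abs]
    rcases le_or_gt (n : ℝ) (ε * T) with hA | hA
    · have hz : ce ε η κ K P T n ^ 2 = 0 := by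
        have h1 := ce_sq ε η κ K P T hε hP hκ hT0 hW n hn1
        have g1 : n ∉ Finset.Ioc ⌊ε * T⌋₊ ⌊T / ε⌋₊ := by
          rw [Finset.mem_Ioc, Nat.floor_lt hεT.le]; intro hc; linarith [hc.1]
        have g2 : n ∉ Finset.Ioc ⌊ε * T⌋₊ ⌊Real.exp κ * (ε * T)⌋₊ := by
          rw [Finset.mem_Ioc, Nat.floor_lt hεT.le]; intro hc; linarith [hc.1]
        have g3 : n ∉ Finset.Ioc ⌊T / ε⌋₊ ⌊Real.exp κ * (T / ε)⌋₊ := by
          rw [Finset.mem_Ioc, Nat.floor_lt hTε.le]; intro hc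
          have : ε * T ≤ T / ε := by
            rw [le_div_iff₀ hε]; nlinarith [mul_pos hε hε]
          linarith [hc.1]
        rw [if_neg g1, if_neg g2, if_neg g3] at h1
        have h2 : 0 ≤ ce ε η κ K P T n ^ 2 := sq_nonneg _
        norm_num at h1
        rw [h1]; norm_num
      rw [hz]; simp
    · have h1 : 1 / b ≤ T / a := by
        rw [hb, one_div, inv_div]
        apply div_le_div_of_nonneg_left hT0.le ha
        nlinarith
      have h2 : (1 / b + n) / (n : ℝ) ^ 2 ≤ B0 / T := by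
        have e2 : (1 / b + n) / (n : ℝ) ^ 2 = 1 / b * (1 / (n : ℝ)) ^ 2 + 1 / n := by
          field_simp
        have h3 : 1 / (n : ℝ) ≤ 1 / (ε * T) := one_div_le_one_div_of_le hεT hA.le
        have h4 : (1 / (n : ℝ)) ^ 2 ≤ (1 / (ε * T)) ^ 2 := pow_le_pow_left₀ (by positivity) h3 2
        have h5 : 1 / b * (1 / (n : ℝ)) ^ 2 ≤ T / a * (1 / (ε * T)) ^ 2 :=
          mul_le_mul h1 h4 (by positivity) (by positivity)
        have h6 : T / a * (1 / (ε * T)) ^ 2 + 1 / (ε * T) = B0 / T := by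
          rw [hB0]; field_simp
        linarith
      calc (1 / b + n) * ce ε η κ K P T n ^ 2 / (n : ℝ) ^ 2 =
            (1 / b + n) / (n : ℝ) ^ 2 * ce ε η κ K P T n ^ 2 := by ring
        _ ≤ _ := mul_le_mul_of_nonneg_right h2 (sq_nonneg _)
  -- the three sums
  set Ia := Finset.Ioc ⌊ε * T⌋₊ ⌊T / ε⌋₊ with hIa
  set Ib := Finset.Ioc ⌊ε * T⌋₊ ⌊Real.exp κ * (ε * T)⌋₊ with hIb
  set Ic := Finset.Ioc ⌊T / ε⌋₊ ⌊Real.exp κ * (T / ε)⌋₊ with hIc
  have hS1 : ∑ n ∈ Finset.Icc 1 N, ff η T n ^ 2 *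
      (if n ∈ Ia then 2 * (1 - omq P Q n / W) ^ 2 else 0) ≤ 2 * E0 * (C1 * T * L ^ 4 / W) := by
    calc ∑ n ∈ Finset.Icc 1 N, ff η T n ^ 2 *
          (if n ∈ Ia then 2 * (1 - omq P Q n / W) ^ 2 else 0) ≤
          ∑ n ∈ Finset.Icc 1 N, 2 * E0 * (Real.log n ^ 4 * (1 - omq P Q n / W) ^ 2 *
            Real.exp (-(2 * 1 / T * n))) := by
          refine Finset.sum_le_sum (fun n hn => ?_)
          have hn1 := (Finset.mem_Icc.1 hn).1
          have hlog := Real.log_natCast_nonneg n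
          by_cases hI : n ∈ Ia
          · rw [if_pos hI]
            rw [hIa, Finset.mem_Ioc, Nat.le_floor_iff hTε.le] at hI
            have h1 : 1 ≤ E0 * Real.exp (-(2 * 1 / T * n)) := by
              rw [hE0, ← Real.exp_add]
              apply Real.one_le_exp
              have h2 : 2 * 1 / T * n ≤ 2 * 1 / T * (T / ε) :=
                mul_le_mul_of_nonneg_left hI.2 (by positivity)
              have h3 : 2 * 1 / T * (T / ε) = 2 / ε := by field_simp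
              linarith
            have h2 := (hffsq n hn).1
            calc ff η T n ^ 2 * (2 * (1 - omq P Q n / W) ^ 2) ≤
                  Real.log n ^ 4 * (2 * (1 - omq P Q n / W) ^ 2) :=
                  mul_le_mul_of_nonneg_right h2 (by positivity)
              _ = (2 * (Real.log n ^ 4 * (1 - omq P Q n / W) ^ 2)) * 1 := by ring
              _ ≤ (2 * (Real.log n ^ 4 * (1 - omq P Q n / W) ^ 2)) *
                  (E0 * Real.exp (-(2 * 1 / T * n))) :=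
                  mul_le_mul_of_nonneg_left h1 (by positivity)
              _ = _ := by ring
          · rw [if_neg hI, mul_zero]
            positivity
      _ = 2 * E0 * ∑ n ∈ Finset.Icc 1 N, Real.log n ^ 4 * (1 - omq P Q n / W) ^ 2 *
            Real.exp (-(2 * 1 / T * n)) := by rw [Finset.mul_sum]
      _ ≤ 2 * E0 * (C1 * T * L ^ 4 / W) := by
          apply mul_le_mul_of_nonneg_left _ (by positivity)
          refine le_trans (hs.sum_le_tsum _ (fun n _ => ?_)) htk1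
          have := Real.log_natCast_nonneg n
          positivity
  have hSe : ∀ Y : ℝ, 0 < Y → ∑ n ∈ Finset.Icc 1 N, ff η T n ^ 2 *
      (if n ∈ Finset.Ioc ⌊Y⌋₊ ⌊Real.exp κ * Y⌋₊ then 2 * (omq P Q n / W) ^ 2 else 0) ≤
      32 * L ^ 4 * (4 * κ * Y + T / W) := by
    intro Y hY
    have hend := end_om P Q Y κ hQ0.le hY hκ hκ1
    have hWq : Wq P Q = W := rfl
    rw [hWq] at hend
    calc ∑ n ∈ Finset.Icc 1 N, ff η T n ^ 2 *
          (if n ∈ Finset.Ioc ⌊Y⌋₊ ⌊Real.exp κ * Y⌋₊ then 2 * (omq P Q n / W) ^ 2 else 0) ≤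
          ∑ n ∈ Finset.Icc 1 N, 32 * L ^ 4 / W ^ 2 *
          (if n ∈ Finset.Ioc ⌊Y⌋₊ ⌊Real.exp κ * Y⌋₊ then omq P Q n ^ 2 else 0) := by
          refine Finset.sum_le_sum (fun n hn => ?_)
          by_cases hI : n ∈ Finset.Ioc ⌊Y⌋₊ ⌊Real.exp κ * Y⌋₊
          · rw [if_pos hI, if_pos hI]
            calc ff η T n ^ 2 * (2 * (omq P Q n / W) ^ 2) ≤
                  16 * L ^ 4 * (2 * (omq P Q n / W) ^ 2) :=
                  mul_le_mul_of_nonneg_right (hffsq n hn).2 (by positivity)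
              _ = _ := by field_simp; ring
          · rw [if_neg hI, if_neg hI, mul_zero, mul_zero]
      _ = 32 * L ^ 4 / W ^ 2 * ∑ n ∈ Finset.Icc 1 N,
          (if n ∈ Finset.Ioc ⌊Y⌋₊ ⌊Real.exp κ * Y⌋₊ then omq P Q n ^ 2 else 0) := by
          rw [Finset.mul_sum]
      _ ≤ 32 * L ^ 4 / W ^ 2 * ∑ n ∈ Finset.Ioc ⌊Y⌋₊ ⌊Real.exp κ * Y⌋₊, omq P Q n ^ 2 := by
          apply mul_le_mul_of_nonneg_left _ (by positivity)
          rw [← Finset.sum_filter]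
          apply Finset.sum_le_sum_of_subset_of_nonneg
          · intro n hn
            exact (Finset.mem_filter.1 hn).2
          · intro n _ _
            exact sq_nonneg _
      _ ≤ 32 * L ^ 4 / W ^ 2 * (2 * κ * Y * (W ^ 2 + W) + Q ^ 2) :=
          mul_le_mul_of_nonneg_left hend (by positivity)
      _ ≤ 32 * L ^ 4 / W ^ 2 * (2 * κ * Y * (W ^ 2 + W ^ 2) + T * W) := by
          apply mul_le_mul_of_nonneg_left _ (by positivity)
          have h1 : W ≤ W ^ 2 := by nlinarith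
          have h2 : Q ^ 2 ≤ T * W := by
            have h3 : Q ^ 2 ≤ (T ^ (1 / 4 : ℝ)) ^ 2 := pow_le_pow_left₀ hQ0.le hQ4 2
            have h4 : (T ^ (1 / 4 : ℝ)) ^ 2 ≤ T := by
              rw [← Real.rpow_natCast, ← Real.rpow_mul hT0.le]
              calc T ^ ((1 / 4 : ℝ) * (2 : ℕ)) ≤ T ^ (1 : ℝ) :=
                    Real.rpow_le_rpow_of_exponent_le hT1' (by norm_num)
                _ = T := Real.rpow_one T
            nlinarith
          have h3 : 2 * κ * Y * (W ^ 2 + W) ≤ 2 * κ * Y * (W ^ 2 + W ^ 2) := by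
            apply mul_le_mul_of_nonneg_left _ (by positivity)
            linarith
          linarith
      _ = 32 * L ^ 4 * (4 * κ * Y + T / W) := by
          field_simp; ring
  have hS2 := hSe (ε * T) hεT
  have hS3 := hSe (T / ε) hTε
  have hsum : ∑ n ∈ Finset.Icc 1 N, (1 / b + n) * ‖((ce ε η κ K P T n : ℝ) : ℂ)‖ ^ 2 /
      (n : ℝ) ^ 2 ≤ B0 * (2 * E0 * C1 + 64 + 128 * (ε + 1 / ε)) * (1 / W + κ) * L ^ 4 := by
    calc ∑ n ∈ Finset.Icc 1 N, (1 / b + n) * ‖((ce ε η κ K P T n : ℝ) : ℂ)‖ ^ 2 / (n : ℝ) ^ 2 ≤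
          ∑ n ∈ Finset.Icc 1 N, B0 / T * ce ε η κ K P T n ^ 2 := Finset.sum_le_sum hwt
      _ = B0 / T * ∑ n ∈ Finset.Icc 1 N, ce ε η κ K P T n ^ 2 := by rw [Finset.mul_sum]
      _ ≤ B0 / T * ∑ n ∈ Finset.Icc 1 N, (ff η T n ^ 2 *
            (if n ∈ Ia then 2 * (1 - omq P Q n / W) ^ 2 else 0) +
            (ff η T n ^ 2 * (if n ∈ Ib then 2 * (omq P Q n / W) ^ 2 else 0) +
            ff η T n ^ 2 * (if n ∈ Ic then 2 * (omq P Q n / W) ^ 2 else 0))) := by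
          apply mul_le_mul_of_nonneg_left _ (by positivity)
          refine Finset.sum_le_sum (fun n hn => ?_)
          have h1 := ce_sq ε η κ K P T hε hP hκ hT0 hW n (Finset.mem_Icc.1 hn).1
          rw [mul_add, mul_add] at h1
          exact h1
      _ ≤ B0 / T * (2 * E0 * (C1 * T * L ^ 4 / W) + (32 * L ^ 4 * (4 * κ * (ε * T) + T / W) +
            32 * L ^ 4 * (4 * κ * (T / ε) + T / W))) := by
          apply mul_le_mul_of_nonneg_left _ (by positivity)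
          rw [Finset.sum_add_distrib, Finset.sum_add_distrib]
          exact add_le_add hS1 (add_le_add hS2 hS3)
      _ = B0 * ((2 * E0 * C1 + 64) * (1 / W) + 128 * (ε + 1 / ε) * κ) * L ^ 4 := by
          field_simp; ring
      _ ≤ B0 * ((2 * E0 * C1 + 64 + 128 * (ε + 1 / ε)) * (1 / W + κ)) * L ^ 4 := by
          apply mul_le_mul_of_nonneg_right _ (by positivity)
          apply mul_le_mul_of_nonneg_left _ hB00.le
          have h1 : 0 ≤ 1 / W := by positivity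
          have h2 : 0 ≤ 2 * E0 * C1 + 64 := by positivity
          have h3 : 0 ≤ 128 * (ε + 1 / ε) := by positivity
          have h4 : (2 * E0 * C1 + 64 + 128 * (ε + 1 / ε)) * (1 / W + κ) =
              (2 * E0 * C1 + 64) * (1 / W) + 128 * (ε + 1 / ε) * κ +
              ((2 * E0 * C1 + 64) * κ + 128 * (ε + 1 / ε) * (1 / W)) := by ring
          rw [h4]
          have h5 : 0 ≤ (2 * E0 * C1 + 64) * κ + 128 * (ε + 1 / ε) * (1 / W) := by positivity
          linarith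
      _ = _ := by ring
  calc C0 * ∑ n ∈ Finset.Icc 1 N, (1 / b + n) * ‖((ce ε η κ K P T n : ℝ) : ℂ)‖ ^ 2 /
        (n : ℝ) ^ 2 ≤ C0 * (B0 * (2 * E0 * C1 + 64 + 128 * (ε + 1 / ε)) * (1 / W + κ) * L ^ 4) :=
        mul_le_mul_of_nonneg_left hsum hC0.le
    _ = _ := by ring

/-- Row DECK. -/
theorem deck (hM : MVTXStatement) (hB : BASXStatement) : G10.DECKStatement := by
  intro a ε ha hε hε1
  obtain ⟨C, hC, h⟩ := dec8u hM hB a ε ha hε hε1
  refine ⟨C, hC, fun η hη hη1 => ?_⟩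
  obtain ⟨T0, hT0, h2⟩ := h η hη hη1
  refine ⟨T0, hT0, fun T h P κ K hT p1 p2 p3 p4 p5 _ p6 p7 => ?_⟩
  have hL : 0 < Real.log T := Real.log_pos (by linarith)
  have hκ : 0 < κ := lt_of_lt_of_le (by positivity) p4
  exact h2 κ K T h P hκ (by linarith) hT p1 p2 p3 p6 p7

end Pool.Agent.Lib.MP_6bc78b_nt.GP.H78K
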