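import Mathlib

/-! Project GP7 (MP_6bc78b_nt): the Turan-Kubilius inequality with an exponential weight. -/

set_option autoImplicit false

open Finset Real

namespace Pool.Agent.Lib.MP_6bc78b_nt.GP.H78

/-- The reciprocals of a finite set of integers. -/
noncomputable def Ws (S : Finset ℕ) : ℝ := ∑ q ∈ S, (1 : ℝ) / q

/-- The number of the elements of `S` that divide `n`. -/
noncomputable def oms (S : Finset ℕ) (n : ℕ) : ℝ := ∑ q ∈ S, if q ∣ n then (1 : ℝ) else 0

/-- `∑_{d | n} e^{-bn}`. -/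
noncomputable def Gd (b : ℝ) (d : ℕ) : ℝ := (1 - Real.exp (-(b * d)))⁻¹

lemma hasSum_dvd (b : ℝ) (hb : 0 < b) (d : ℕ) (hd : 0 < d) :
    HasSum (fun n : ℕ => (if d ∣ n then (1 : ℝ) else 0) * Real.exp (-(b * n))) (Gd b d) := by
  have hx : (0 : ℝ) < b * d := mul_pos hb (by exact_mod_cast hd)
  have h1 : HasSum (fun m : ℕ => Real.exp (-(b * d)) ^ m) (1 - Real.exp (-(b * d)))⁻¹ :=
    hasSum_geometric_of_lt_one (Real.exp_pos _).le (by
      rw [Real.exp_lt_one_iff]; linarith)
  have hinj : Function.Injective (fun m : ℕ => d * m) := fun x y h => by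
    exact Nat.eq_of_mul_eq_mul_left hd h
  rw [Gd, ← hinj.hasSum_iff]
  · convert h1 using 2 with m
    simp only [Function.comp_apply, dvd_mul_right, if_true, one_mul]
    rw [← Real.exp_nat_mul]
    congr 1
    push_cast
    ring
  · intro n hn
    have : ¬ d ∣ n := by
      rintro ⟨m, rfl⟩
      exact hn ⟨m, rfl⟩
    simp [this]

lemma Gd_ge (b : ℝ) (hb : 0 < b) (d : ℕ) (hd : 0 < d) : 1 / (b * d) ≤ Gd b d := by
  have hx : (0 : ℝ) < b * d := mul_pos hb (by exact_mod_cast hd)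
  rw [Gd, one_div]
  apply inv_anti₀
  · have : Real.exp (-(b * d)) < 1 := by rw [Real.exp_lt_one_iff]; linarith
    linarith
  · have := Real.add_one_le_exp (-(b * d))
    linarith

lemma Gd_le (b : ℝ) (hb : 0 < b) (d : ℕ) (hd : 0 < d) : Gd b d ≤ 1 / (b * d) + 1 := by
  have hx : (0 : ℝ) < b * d := mul_pos hb (by exact_mod_cast hd)
  set x : ℝ := b * d with hxd
  have h1 : Real.exp (-x) < 1 := by rw [Real.exp_lt_one_iff]; linarith
  have h2 : (1 + x) * Real.exp (-x) ≤ 1 := by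
    have h3 := Real.add_one_le_exp x
    calc (1 + x) * Real.exp (-x) ≤ Real.exp x * Real.exp (-x) := by
          apply mul_le_mul_of_nonneg_right (by linarith) (Real.exp_pos _).le
      _ = 1 := by rw [← Real.exp_add]; simp
  rw [Gd, inv_eq_one_div, div_le_iff₀ (by linarith)]
  have h4 : (1 / x + 1) * (1 - Real.exp (-x)) = (1 / x) * ((1 + x) * (1 - Real.exp (-x))) := by
    field_simp
  rw [h4]
  have h5 : x ≤ (1 + x) * (1 - Real.exp (-x)) := by nlinarith
  calc (1 : ℝ) = (1 / x) * x := by field_simp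
    _ ≤ _ := by
      apply mul_le_mul_of_nonneg_left h5 (by positivity)

/-- **Turan-Kubilius with the weight `e^{-bn}`.** -/
theorem tk_exp (S : Finset ℕ) (hS : ∀ q ∈ S, q.Prime) (b : ℝ) (hb : 0 < b) :
    Summable (fun n : ℕ => (Ws S - oms S n) ^ 2 * Real.exp (-(b * n))) ∧
    ∑' n : ℕ, (Ws S - oms S n) ^ 2 * Real.exp (-(b * n)) ≤
      Ws S / b + 3 * (S.card : ℝ) ^ 2 := by
  classical
  set W := Ws S with hW
  have hpos : ∀ q ∈ S, 0 < q := fun q hq => (hS q hq).pos
  -- pair divisor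
  let dd : ℕ → ℕ → ℕ := fun q r => if q = r then q else q * r
  have hdd : ∀ q ∈ S, ∀ r ∈ S, 0 < dd q r := by
    intro q hq r hr
    simp only [dd]
    split_ifs
    · exact hpos q hq
    · exact Nat.mul_pos (hpos q hq) (hpos r hr)
  have hdv : ∀ q ∈ S, ∀ r ∈ S, ∀ n : ℕ,
      (if q ∣ n then (1 : ℝ) else 0) * (if r ∣ n then (1 : ℝ) else 0) =
        if dd q r ∣ n then (1 : ℝ) else 0 := by
    intro q hq r hr n
    simp only [dd]
    by_cases h : q = r
    · subst h
      by_cases h2 : q ∣ n <;> simp [h2]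
    · simp only [h, if_false]
      have hc : Nat.Coprime q r := (Nat.coprime_primes (hS q hq) (hS r hr)).2 h
      by_cases h2 : q ∣ n
      · by_cases h3 : r ∣ n
        · simp [h2, h3, hc.mul_dvd_of_dvd_of_dvd h2 h3]
        · have : ¬ q * r ∣ n := fun h4 => h3 (dvd_trans (dvd_mul_left _ _) h4)
          simp [h3, this]
      · have : ¬ q * r ∣ n := fun h4 => h2 (dvd_trans (dvd_mul_right _ _) h4)
        simp [h2, this]
  have key : HasSum (fun n : ℕ => (W - oms S n) ^ 2 * Real.exp (-(b * n)))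
      (W ^ 2 * Gd b 1 - 2 * W * ∑ q ∈ S, Gd b q + ∑ q ∈ S, ∑ r ∈ S, Gd b (dd q r)) := by
    have a1 := (hasSum_dvd b hb 1 one_pos).mul_left (W ^ 2)
    have a2 : HasSum (fun n : ℕ => 2 * W * ∑ q ∈ S,
        ((if q ∣ n then (1 : ℝ) else 0) * Real.exp (-(b * n)))) (2 * W * ∑ q ∈ S, Gd b q) :=
      (hasSum_sum (fun q hq => hasSum_dvd b hb q (hpos q hq))).mul_left (2 * W)
    have a3 : HasSum (fun n : ℕ => ∑ q ∈ S, ∑ r ∈ S,
        ((if dd q r ∣ n then (1 : ℝ) else 0) * Real.exp (-(b * n))))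
        (∑ q ∈ S, ∑ r ∈ S, Gd b (dd q r)) :=
      hasSum_sum (fun q hq => hasSum_sum (fun r hr => hasSum_dvd b hb _ (hdd q hq r hr)))
    have a4 := (a1.sub a2).add a3
    suffices e0 : (fun n : ℕ => (W - oms S n) ^ 2 * Real.exp (-(b * n))) = fun n : ℕ =>
        W ^ 2 * ((if 1 ∣ n then (1 : ℝ) else 0) * Real.exp (-(b * n))) -
          2 * W * ∑ q ∈ S, ((if q ∣ n then (1 : ℝ) else 0) * Real.exp (-(b * n))) +
        ∑ q ∈ S, ∑ r ∈ S, ((if dd q r ∣ n then (1 : ℝ) else 0) * Real.exp (-(b * n))) by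
      rw [e0]; exact a4
    funext n
    have e1 : oms S n = ∑ q ∈ S, if q ∣ n then (1 : ℝ) else 0 := rfl
    have e2 : ∑ q ∈ S, ∑ r ∈ S, ((if dd q r ∣ n then (1 : ℝ) else 0) * Real.exp (-(b * n))) =
        (oms S n) ^ 2 * Real.exp (-(b * n)) := by
      rw [e1, sq, Finset.sum_mul_sum, Finset.sum_mul]
      refine Finset.sum_congr rfl (fun q hq => ?_)
      rw [Finset.sum_mul]
      refine Finset.sum_congr rfl (fun r hr => ?_)
      rw [hdv q hq r hr n]
    rw [e2, ← Finset.sum_mul, ← e1]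
    simp only [one_dvd, if_true, one_mul]
    ring
  refine ⟨key.summable, ?_⟩
  rw [key.tsum_eq]
  have b1 : W ^ 2 * Gd b 1 ≤ W ^ 2 * (1 / b + 1) := by
    apply mul_le_mul_of_nonneg_left _ (sq_nonneg _)
    have := Gd_le b hb 1 one_pos
    simpa using this
  have hW0 : 0 ≤ W := by
    rw [hW, Ws]; positivity
  have hsumq : ∑ q ∈ S, 1 / (b * (q : ℝ)) = W / b := by
    rw [hW, Ws, Finset.sum_div]
    refine Finset.sum_congr rfl (fun q hq => ?_)
    rw [div_div, mul_comm]
  have b2 : W / b ≤ ∑ q ∈ S, Gd b q := by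
    rw [← hsumq]
    exact Finset.sum_le_sum (fun q hq => Gd_ge b hb q (hpos q hq))
  have b3 : ∑ q ∈ S, ∑ r ∈ S, Gd b (dd q r) ≤ W ^ 2 / b + W / b + (S.card : ℝ) ^ 2 := by
    have c1 : ∀ q ∈ S, ∀ r ∈ S, Gd b (dd q r) ≤
        (1 / (q : ℝ)) * (1 / (r : ℝ)) / b + (if q = r then 1 / (b * (q : ℝ)) else 0) + 1 := by
      intro q hq r hr
      have hq0 : (0 : ℝ) < q := by exact_mod_cast hpos q hq
      have hr0 : (0 : ℝ) < r := by exact_mod_cast hpos r hr
      have := Gd_le b hb (dd q r) (hdd q hq r hr)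
      by_cases h : q = r
      · subst h
        simp only [dd, if_true] at this ⊢
        have : (0 : ℝ) ≤ (1 / (q : ℝ)) * (1 / (q : ℝ)) / b := by positivity
        linarith
      · simp only [dd, h, if_false] at this ⊢
        have e : 1 / (b * ((q * r : ℕ) : ℝ)) = (1 / (q : ℝ)) * (1 / (r : ℝ)) / b := by
          push_cast
          field_simp
        rw [e] at this
        linarith
    calc ∑ q ∈ S, ∑ r ∈ S, Gd b (dd q r) ≤ ∑ q ∈ S, ∑ r ∈ S,
          ((1 / (q : ℝ)) * (1 / (r : ℝ)) / b + (if q = r then 1 / (b * (q : ℝ)) else 0) + 1) :=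
          Finset.sum_le_sum (fun q hq => Finset.sum_le_sum (fun r hr => c1 q hq r hr))
      _ = W ^ 2 / b + W / b + (S.card : ℝ) ^ 2 := by
          simp only [Finset.sum_add_distrib]
          congr 1
          · congr 1
            · rw [hW, Ws, sq, Finset.sum_mul_sum, Finset.sum_div]
              refine Finset.sum_congr rfl (fun q hq => ?_)
              rw [Finset.sum_div]
            · rw [← hsumq]
              refine Finset.sum_congr rfl (fun q hq => ?_)
              rw [Finset.sum_ite_eq]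
              simp [hq]
          · simp [sq]
  have hWc : W ≤ S.card := by
    rw [hW, Ws]
    calc ∑ q ∈ S, (1 : ℝ) / q ≤ ∑ q ∈ S, (1 : ℝ) := by
          refine Finset.sum_le_sum (fun q hq => ?_)
          rw [div_le_one (by exact_mod_cast hpos q hq)]
          exact_mod_cast hpos q hq
      _ = S.card := by simp
  have b4 : 2 * W * (W / b) ≤ 2 * W * ∑ q ∈ S, Gd b q :=
    mul_le_mul_of_nonneg_left b2 (by positivity)
  have b5 : W ^ 2 ≤ (S.card : ℝ) ^ 2 := by
    apply pow_le_pow_left₀ hW0 hWc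
  have b6 : W ^ 2 * (1 / b + 1) = W ^ 2 / b + W ^ 2 := by ring
  have b7 : 2 * W * (W / b) = 2 * (W ^ 2 / b) := by ring
  nlinarith [sq_nonneg (S.card : ℝ)]

/-- Powers of `log n` against the weight: `(log n)^k e^{-2an/T} ≤ C (log T)^k e^{-an/T}`. -/
theorem log_pow_exp (k : ℕ) (a : ℝ) (ha : 0 < a) : ∃ C : ℝ, 0 < C ∧ ∀ T : ℝ, 3 ≤ T → ∀ n : ℕ,
    Real.log n ^ k * Real.exp (-(2 * a * n / T)) ≤
      C * Real.log T ^ k * Real.exp (-(a * n / T)) := by
  refine ⟨2 ^ k * (1 + (k.factorial : ℝ) / a ^ k), by positivity, fun T hT n => ?_⟩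
  have hT0 : 0 < T := by linarith
  have hL1 : 1 ≤ Real.log T := by
    rw [Real.le_log_iff_exp_le hT0]
    have := Real.exp_one_lt_d9
    linarith
  set L := Real.log T with hL
  set y : ℝ := n / T with hy
  have hy0 : 0 ≤ y := by positivity
  have e1 : Real.exp (-(2 * a * n / T)) = Real.exp (-(a * y)) * Real.exp (-(a * y)) := by
    rw [← Real.exp_add]; congr 1; rw [hy]; ring
  have e2 : Real.exp (-(a * n / T)) = Real.exp (-(a * y)) := by
    congr 1; rw [hy]; ring
  rw [e1, e2]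
  have hlog0 : 0 ≤ Real.log n := Real.log_natCast_nonneg n
  have hlog : Real.log n ≤ L + y := by
    rcases Nat.eq_zero_or_pos n with h | h
    · subst h
      simp only [Nat.cast_zero, Real.log_zero]
      positivity
    · have hn : (0 : ℝ) < n := by exact_mod_cast h
      have e3 : Real.log n = L + Real.log y := by
        rw [hy, Real.log_div hn.ne' hT0.ne']; ring
      have := Real.log_le_sub_one_of_pos (show 0 < y by positivity)
      rw [e3]; linarith
  have h3 : y ^ k * Real.exp (-(a * y)) ≤ (k.factorial : ℝ) / a ^ k := by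
    have h4 := Real.pow_div_factorial_le_exp (a * y) (by positivity) k
    have h5 : Real.exp (-(a * y)) * Real.exp (a * y) = 1 := by
      rw [← Real.exp_add]; simp
    rw [le_div_iff₀ (by positivity)]
    have hf : (0 : ℝ) < k.factorial := by exact_mod_cast k.factorial_pos
    rw [div_le_iff₀ hf] at h4
    calc y ^ k * Real.exp (-(a * y)) * a ^ k = (a * y) ^ k * Real.exp (-(a * y)) := by
          rw [mul_pow]; ring
      _ ≤ (Real.exp (a * y) * k.factorial) * Real.exp (-(a * y)) :=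
          mul_le_mul_of_nonneg_right h4 (Real.exp_pos _).le
      _ = (k.factorial : ℝ) := by
          calc _ = (k.factorial : ℝ) * (Real.exp (-(a * y)) * Real.exp (a * y)) := by ring
            _ = _ := by rw [h5]; ring
  have h6 : Real.log n ^ k ≤ 2 ^ k * (L ^ k + y ^ k) := by
    calc Real.log n ^ k ≤ (L + y) ^ k := pow_le_pow_left₀ hlog0 hlog k
      _ ≤ 2 ^ (k - 1) * (L ^ k + y ^ k) := add_pow_le (by positivity) hy0 k
      _ ≤ 2 ^ k * (L ^ k + y ^ k) := by
          apply mul_le_mul_of_nonneg_right _ (by positivity)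
          exact pow_le_pow_right₀ (by norm_num) (Nat.sub_le k 1)
  have h7 : Real.exp (-(a * y)) ≤ 1 := by
    rw [Real.exp_le_one_iff]; nlinarith
  have hLk : 1 ≤ L ^ k := one_le_pow₀ hL1
  have h8 : Real.log n ^ k * Real.exp (-(a * y)) ≤
      2 ^ k * (1 + (k.factorial : ℝ) / a ^ k) * L ^ k := by
    calc Real.log n ^ k * Real.exp (-(a * y)) ≤ 2 ^ k * (L ^ k + y ^ k) * Real.exp (-(a * y)) :=
          mul_le_mul_of_nonneg_right h6 (Real.exp_pos _).le
      _ = 2 ^ k * (L ^ k * Real.exp (-(a * y)) + y ^ k * Real.exp (-(a * y))) := by ring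
      _ ≤ 2 ^ k * (L ^ k * 1 + (k.factorial : ℝ) / a ^ k * L ^ k) := by
          apply mul_le_mul_of_nonneg_left _ (by positivity)
          apply add_le_add
          · exact mul_le_mul_of_nonneg_left h7 (by positivity)
          · calc _ ≤ (k.factorial : ℝ) / a ^ k := h3
              _ = (k.factorial : ℝ) / a ^ k * 1 := by ring
              _ ≤ _ := by
                apply mul_le_mul_of_nonneg_left hLk (by positivity)
      _ = _ := by ring
  calc Real.log n ^ k * (Real.exp (-(a * y)) * Real.exp (-(a * y))) =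
        (Real.log n ^ k * Real.exp (-(a * y))) * Real.exp (-(a * y)) := by ring
    _ ≤ _ := mul_le_mul_of_nonneg_right h8 (Real.exp_pos _).le

lemma Ws_nonneg (S : Finset ℕ) : 0 ≤ Ws S := by
  rw [Ws]; positivity

lemma Ws_pos (S : Finset ℕ) (hS : ∀ q ∈ S, q.Prime) (hne : S.Nonempty) : 0 < Ws S := by
  rw [Ws]
  apply Finset.sum_pos _ hne
  intro q hq
  have : (0 : ℝ) < q := by exact_mod_cast (hS q hq).pos
  positivity

/-- **Turan-Kubilius with the weight `(log n)^k e^{-2an/T}`.** -/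
theorem tk_log (k : ℕ) (a : ℝ) (ha : 0 < a) : ∃ C : ℝ, 0 < C ∧ ∀ T : ℝ, 3 ≤ T →
    ∀ S : Finset ℕ, S.Nonempty → (∀ q ∈ S, q.Prime) → (∀ q ∈ S, (q : ℝ) ^ 3 ≤ T) →
    Summable (fun n : ℕ => Real.log n ^ k * (1 - oms S n / Ws S) ^ 2 *
      Real.exp (-(2 * a * n / T))) ∧
    ∑' n : ℕ, Real.log n ^ k * (1 - oms S n / Ws S) ^ 2 * Real.exp (-(2 * a * n / T)) ≤
      C * T * Real.log T ^ k / Ws S := by
  obtain ⟨C, hC, hlog⟩ := log_pow_exp k a ha
  refine ⟨C * (1 / a + 3), by positivity, fun T hT S hne hS hQ => ?_⟩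
  have hT0 : 0 < T := by linarith
  have hL0 : 0 ≤ Real.log T := Real.log_nonneg (by linarith)
  have hb : 0 < a / T := by positivity
  obtain ⟨hs, hle⟩ := tk_exp S hS (a / T) hb
  have hW := Ws_pos S hS hne
  set W := Ws S with hWd
  have hterm : ∀ n : ℕ, Real.log n ^ k * (1 - oms S n / W) ^ 2 * Real.exp (-(2 * a * n / T)) ≤
      (C * Real.log T ^ k / W ^ 2) * ((W - oms S n) ^ 2 * Real.exp (-(a / T * n))) := by
    intro n
    have e1 : (1 - oms S n / W) ^ 2 = (W - oms S n) ^ 2 / W ^ 2 := by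
      field_simp
    have e2 : Real.exp (-(a / T * n)) = Real.exp (-(a * n / T)) := by
      congr 1; ring
    rw [e1, e2]
    calc Real.log n ^ k * ((W - oms S n) ^ 2 / W ^ 2) * Real.exp (-(2 * a * n / T)) =
          ((W - oms S n) ^ 2 / W ^ 2) * (Real.log n ^ k * Real.exp (-(2 * a * n / T))) := by ring
      _ ≤ ((W - oms S n) ^ 2 / W ^ 2) * (C * Real.log T ^ k * Real.exp (-(a * n / T))) :=
          mul_le_mul_of_nonneg_left (hlog T hT n) (by positivity)
      _ = _ := by ring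
  have hnn : ∀ n : ℕ, 0 ≤ Real.log n ^ k * (1 - oms S n / W) ^ 2 *
      Real.exp (-(2 * a * n / T)) := by
    intro n
    have := Real.log_natCast_nonneg n
    positivity
  have hs2 : Summable (fun n : ℕ => (C * Real.log T ^ k / W ^ 2) *
      ((W - oms S n) ^ 2 * Real.exp (-(a / T * n)))) := hs.mul_left _
  have hs1 := Summable.of_nonneg_of_le hnn hterm hs2
  refine ⟨hs1, ?_⟩
  have hmax : ∃ m ∈ S, ∀ q ∈ S, q ≤ m := by
    obtain ⟨m, hm, h⟩ := S.exists_max_image id hne
    exact ⟨m, hm, h⟩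
  obtain ⟨m, hm, hmx⟩ := hmax
  have hm0 : (0 : ℝ) < m := by exact_mod_cast (hS m hm).pos
  have hcard : (S.card : ℝ) ≤ m := by
    have h1 : S ⊆ Finset.Icc 1 m := by
      intro q hq
      rw [Finset.mem_Icc]
      exact ⟨(hS q hq).one_le, hmx q hq⟩
    have h2 := Finset.card_le_card h1
    rw [Nat.card_Icc, Nat.add_sub_cancel] at h2
    exact_mod_cast h2
  have hWm : 1 / (m : ℝ) ≤ W := by
    rw [hWd, Ws]
    exact Finset.single_le_sum (f := fun q : ℕ => (1 : ℝ) / q) (fun q _ => by positivity) hm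
  have hc : 3 * (S.card : ℝ) ^ 2 ≤ 3 * T * W := by
    have h1 : (S.card : ℝ) ^ 2 ≤ (m : ℝ) ^ 2 := pow_le_pow_left₀ (by positivity) hcard 2
    have h2 : (m : ℝ) ^ 2 = (m : ℝ) ^ 3 * (1 / m) := by field_simp
    have h3 : (m : ℝ) ^ 3 * (1 / m) ≤ T * W := by
      apply mul_le_mul (hQ m hm) hWm (by positivity) hT0.le
    nlinarith
  calc ∑' n : ℕ, Real.log n ^ k * (1 - oms S n / W) ^ 2 * Real.exp (-(2 * a * n / T)) ≤
        ∑' n : ℕ, (C * Real.log T ^ k / W ^ 2) *
          ((W - oms S n) ^ 2 * Real.exp (-(a / T * n))) := hs1.tsum_le_tsum hterm hs2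
    _ = (C * Real.log T ^ k / W ^ 2) * ∑' n : ℕ,
          ((W - oms S n) ^ 2 * Real.exp (-(a / T * n))) := tsum_mul_left
    _ ≤ (C * Real.log T ^ k / W ^ 2) * (W / (a / T) + 3 * T * W) := by
        apply mul_le_mul_of_nonneg_left _ (by positivity)
        linarith
    _ = C * (1 / a + 3) * T * Real.log T ^ k / W := by
        field_simp

end Pool.Agent.Lib.MP_6bc78b_nt.GP.H78
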