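import Pool.Agent.Lib.MP_6bc78b_nt.GP.H62.Defs7
import Pool.Agent.Lib.MP_6bc78b_nt.GP.H78.Tk

/-! Project GP7 (MP_6bc78b_nt), row TKX: Turan-Kubilius. -/

set_option autoImplicit false

open Complex Filter Topology MeasureTheory ArithmeticFunction Set
open scoped ENNReal

namespace Pool.Agent.Lib.MP_6bc78b_nt.GP.H78

open Pool.Agent.Lib.MP_6bc78b_nt.GP.G7

lemma mem_qs {P Q : ℝ} (hQ : 0 ≤ Q) {q : ℕ} (hq : q ∈ qs P Q) :
    q.Prime ∧ P < q ∧ (q : ℝ) ≤ Q := by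
  classical
  unfold qs at hq
  rw [Finset.mem_filter, Finset.mem_range] at hq
  refine ⟨hq.2.1, hq.2.2, ?_⟩
  have h1 : q ≤ ⌊Q⌋₊ := by omega
  exact (Nat.cast_le.2 h1).trans (Nat.floor_le hQ)

lemma omq_eq (P Q : ℝ) (n : ℕ) : omq P Q n = oms (qs P Q) n := by
  classical
  rw [omq, oms, Finset.card_filter]
  push_cast
  refine Finset.sum_congr rfl (fun q _ => ?_)
  split_ifs <;> rfl

lemma Wq_eq (P Q : ℝ) : Wq P Q = Ws (qs P Q) := rfl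

/-- Row TKX with summability. -/
theorem tkx' (a : ℝ) (ha : 0 < a) : ∃ C T0 : ℝ, 0 < C ∧ 10 < T0 ∧ ∀ T P Q : ℝ, T0 ≤ T →
    2 ≤ P → P < Q → Q ≤ T ^ (1 / 4 : ℝ) → 1 ≤ Wq P Q →
    Summable (fun n : ℕ => Real.log n ^ 4 * (1 - omq P Q n / Wq P Q) ^ 2 *
      Real.exp (-(2 * a / T * n))) ∧
    ∑' n : ℕ, Real.log n ^ 4 * (1 - omq P Q n / Wq P Q) ^ 2 * Real.exp (-(2 * a / T * n)) ≤
      C * T * Real.log T ^ 4 / Wq P Q := by
  obtain ⟨C, hC, h⟩ := tk_log 4 a ha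
  refine ⟨C, 11, hC, by norm_num, fun T P Q hT hP hPQ hQ hW => ?_⟩
  have hT1 : (1 : ℝ) ≤ T := by linarith
  have hQ0 : 0 ≤ Q := by linarith
  have hne : (qs P Q).Nonempty := by
    rw [Finset.nonempty_iff_ne_empty]
    intro h0
    rw [Wq, h0, Finset.sum_empty] at hW
    linarith
  have hq3 : ∀ q ∈ qs P Q, (q : ℝ) ^ 3 ≤ T := by
    intro q hq
    obtain ⟨_, _, hqQ⟩ := mem_qs hQ0 hq
    calc (q : ℝ) ^ 3 ≤ (T ^ (1 / 4 : ℝ)) ^ 3 :=
          pow_le_pow_left₀ (by positivity) (hqQ.trans hQ) 3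
      _ = T ^ (3 / 4 : ℝ) := by
          rw [← Real.rpow_natCast, ← Real.rpow_mul (by linarith)]
          norm_num
      _ ≤ T ^ (1 : ℝ) := Real.rpow_le_rpow_of_exponent_le hT1 (by norm_num)
      _ = T := Real.rpow_one T
  have hpr : ∀ q ∈ qs P Q, q.Prime := fun q hq => (mem_qs hQ0 hq).1
  have h1 := h T (by linarith) (qs P Q) hne hpr hq3
  have e : (fun n : ℕ => Real.log n ^ 4 * (1 - omq P Q n / Wq P Q) ^ 2 *
      Real.exp (-(2 * a / T * n))) = fun n : ℕ =>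
      Real.log n ^ 4 * (1 - oms (qs P Q) n / Ws (qs P Q)) ^ 2 *
      Real.exp (-(2 * a * n / T)) := by
    funext n
    rw [omq_eq, Wq_eq]
    congr 2
    ring
  rw [e]
  exact h1

theorem tkx : TKXStatement := by
  intro a ha
  obtain ⟨C, T0, hC, hT0, h⟩ := tkx' a ha
  exact ⟨C, T0, hC, hT0, fun T P Q h1 h2 h3 h4 h5 => (h T P Q h1 h2 h3 h4 h5).2⟩

end Pool.Agent.Lib.MP_6bc78b_nt.GP.H78
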